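import Pool.Agent.Work.MP_72ad00_an.KT

/-!
The advanced Katz-Tao iteration in mixed form.
-/

set_option autoImplicit false

open Finset Real

namespace Pool.Agent.Work.MP_72ad00_an

open Pool.Agent.Lib.PFR Pool.Agent.Lib.PFR.FP

variable {G : Type} [AddCommGroup G] [Module ℚ G]

/-- The entropy of a pair of points on two lines through a common point. -/
noncomputable def Yv {Ω : Type} [Fintype Ω] (P : FP Ω) (x a : Ω → G) (s t : ℚ) : ℝ :=
  (cp P x).ent fun z => (x z.1 + s • a z.1, x z.2 + t • a z.2)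

theorem Ineq.basic {β : ℝ} {ι : Type} [Fintype ι] {w : FP ι} {r : ι → ℚ} (h : Ineq G β w r)
    (hr : ∀ i, 1 < r i) (h0 : 1 / 2 ≤ β) {Ω : Type} [Fintype Ω] (P : FP Ω) (x a : Ω → G)
    {s c : ℚ} (hs : s ≠ 0) (hc : c ≠ 0) :
    (1 - β) * (cp P x).ent (fun z => x z.1 + s • a z.1 + c • a z.2) +
      P.ent (fun ω => (x ω, a ω)) + (2 * β - 1) * P.ent a ≤
      w.ex (fun i => Yv P x a (r i / (r i - 1) * s) (r i * c)) + β * P.ent x := by
  set Q := cp P x with hQ
  set L := P.ent (fun ω => (x ω, a ω)) with hL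
  have hV : Q.ent (fun z => (x z.1, a z.1, a z.2)) = L + L - P.ent x := cp_pair P x a a
  have t := h.two' hr Q (fun z => x z.1) (fun z => c • a z.2) fun z => s • a z.1
  have t2 := sub3 Q (fun z => x z.1) (fun z => c • a z.2) fun z => s • a z.1
  have e1 : Q.ent (fun z => (x z.1, c • a z.2, s • a z.1)) = L + L - P.ent x := by
    rw [← hV]
    exact Q.ent_congr fun _ _ => by
      simp [Prod.ext_iff, smul_right_inj hc, smul_right_inj hs, and_comm]
  have e2 : Q.ent (fun z => (x z.1, s • a z.1, c • a z.2)) = L + L - P.ent x := by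
    rw [← hV]
    exact Q.ent_congr fun _ _ => by simp [Prod.ext_iff, smul_right_inj hc, smul_right_inj hs]
  have e3 : Q.ent (fun z => c • a z.2) = P.ent a := by
    rw [← cp_snd P x a]
    exact Q.ent_congr fun _ _ => smul_right_inj hc
  have e4 : Q.ent (fun z => (x z.1, c • a z.2)) = L := by
    rw [hL, ← cp_snd P x]
    exact Q.ent_congr' fun s t hs ht => by
      rw [(cp_supp hs).2.2, (cp_supp ht).2.2]
      simp [Prod.ext_iff, smul_right_inj hc]
  have e5 : ∀ i, Q.ent (fun z => (x z.1 + r i • c • a z.2, x z.1 + (r i / (r i - 1)) • s • a z.1)) =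
      Yv P x a (r i / (r i - 1) * s) (r i * c) := fun i =>
    Q.ent_congr' fun s t hs ht => by
      rw [(cp_supp hs).2.2, (cp_supp ht).2.2]
      simp only [smul_smul, Prod.ext_iff, and_comm]
  simp only [e1, e5] at t
  rw [e2, e3, e4] at t2
  have f := mul_le_mul_of_nonneg_left t2 (by linarith : 0 ≤ 2 * β - 1)
  linarith [t, f]

theorem Ineq.corner {β : ℝ} {ι : Type} [Fintype ι] {w : FP ι} {r : ι → ℚ} (h : Ineq G β w r)
    (hr : ∀ i, 1 < r i) (h0 : 1 / 2 ≤ β) (h1 : β ≤ 1) {Ω : Type} [Fintype Ω] (P : FP Ω)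
    (x a : Ω → G) {s t : ℚ} (hs : s ≠ 0) (ht : t ≠ 0) :
    (1 - β) * Yv P x a s t + P.ent (fun ω => (x ω, a ω)) + 2 * β * P.ent a ≤
      w.ex (fun i => (cp P fun ω => x ω + s • a ω).ent fun z =>
        x z.1 + s • a z.1 + (- s) • a z.1 + (r i / (r i - 1)) • a z.2) +
      w.ex (fun i => P.ent fun ω => x ω + (r i * t) • a ω) + β * P.ent x +
      P.ent (fun ω => x ω + s • a ω) + (1 - β) * P.ent fun ω => x ω + t • a ω := by
  set Q := cp P x with hQ
  set y : Ω → G := fun ω => x ω + s • a ω with hy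
  set Q' := cp P y with hQ'
  set R := gl Q P y Prod.fst with hR
  set L := P.ent (fun ω => (x ω, a ω)) with hL
  have hm : Q.map Prod.fst = P := cp_map_fst P x
  have hLy : P.ent (fun ω => (y ω, a ω)) = L := ent_shift P x a s
  have hV : Q.ent (fun z => (x z.1, a z.1, a z.2)) = L + L - P.ent x := cp_pair P x a a
  have hV' : Q'.ent (fun z => (y z.1, a z.1, a z.2)) = L + L - P.ent y := by
    rw [← hLy]
    exact cp_pair P y a a
  have hd : R.ent (fun v => a v.2) = P.ent a := by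
    rw [← cp_snd P y a]
    exact gl_marg hm y fun z => a z.2
  have hL' : Q'.ent (fun z => (y z.1, a z.2)) = L := by
    rw [← hLy, ← cp_snd P y]
    exact Q'.ent_congr' fun s t hs ht => by rw [(cp_supp hs).2.2, (cp_supp ht).2.2]
  have hL1 : R.ent (fun v => (y v.1.1, a v.2)) = L := by
    rw [← hL']
    exact gl_marg hm y fun z => (y z.1, a z.2)
  have hx : ∀ ω, y ω + (- s) • a ω = x ω := fun ω => by
    simp only [hy]
    module
  have key : ∀ ω ω', a ω = a ω' → (y ω = y ω' ↔ x ω = x ω') := fun ω ω' h => by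
    simp only [hy]
    rw [h, add_left_inj]
  -- the pair of a point of the middle line and the direction of the first line
  have hM : L + P.ent a ≤ R.ent (fun v => (x v.1.1, a v.2)) + P.ent y := by
    have t2 := sub3 Q' (fun z => y z.1) (fun z => a z.2) fun z => (- s) • a z.1
    have e2 : Q'.ent (fun z => (y z.1, (- s) • a z.1, a z.2)) = L + L - P.ent y := by
      rw [← hV']
      exact Q'.ent_congr fun _ _ => by simp [Prod.ext_iff, smul_right_inj hs]
    rw [e2, hL', cp_snd P y a] at t2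
    simp only [hx] at t2
    rw [← gl_marg hm y fun z => (x z.1, a z.2)] at t2
    linarith
  have hC : R.ent (fun v => (y v.1.1, (x v.1.1, a v.1.1, a v.1.2), a v.2)) =
      L + L - P.ent x + L - P.ent y := by
    rw [gl_pair hm y (fun z => (x z.1, a z.1, a z.2)) a, hLy, ← hV]
    congr 2
    exact Q.ent_congr fun _ _ => by
      simp only [Prod.ext_iff]
      exact ⟨fun h => h.2, fun h => ⟨(key _ _ h.2.1).2 h.1, h⟩⟩
  have hV12 : R.ent (fun v => (x v.1.1, a v.1.1, a v.2)) = L + L - P.ent y := by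
    rw [← hV', ← gl_marg hm y fun z => (y z.1, a z.1, a z.2)]
    exact R.ent_congr fun _ _ => by
      simp only [Prod.ext_iff]
      exact ⟨fun h => ⟨(key _ _ h.2.1).2 h.1, h.2⟩, fun h => ⟨(key _ _ h.2.1).1 h.1, h.2⟩⟩
  have hT := R.submod (fun v => (x v.1.1, t • a v.1.2, a v.2))
    (fun v => (x v.1.1, a v.1.1, a v.2)) (fun v => (x v.1.1, a v.2))
    (fun v => (y v.1.1, (x v.1.1, a v.1.1, a v.1.2), a v.2))
    (fun _ _ h => by
      simp only [Prod.ext_iff] at h ⊢
      exact ⟨h.1, h.2.2⟩)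
    (fun _ _ h => by
      simp only [Prod.ext_iff] at h ⊢
      exact ⟨h.1, h.2.2⟩)
    fun _ _ h1 h2 => by
      simp only [Prod.ext_iff, smul_right_inj ht] at h1 h2 ⊢
      exact ⟨(key _ _ h2.2.1).2 h1.1, ⟨h1.1, h2.2.1, h1.2.1⟩, h1.2.2⟩
  rw [hC, hV12] at hT
  have hq : R.ent (fun v => x v.1.1 + t • a v.1.2) = P.ent fun ω => x ω + t • a ω := by
    rw [gl_fst Q P y Prod.fst fun z => x z.1 + t • a z.2, ← cp_snd P x]
    exact Q.ent_congr' fun s t hs ht => by rw [(cp_supp hs).2.2, (cp_supp ht).2.2]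
  have hY : R.ent (fun v => (y v.1.1, x v.1.1 + t • a v.1.2, a v.2)) =
      Yv P x a s t + L - P.ent y := by
    rw [gl_pair hm y (fun z => x z.1 + t • a z.2) a, hLy]
    congr 2
    exact Q.ent_congr' fun s t hs ht => by rw [(cp_supp hs).2.2, (cp_supp ht).2.2]
  have hμ1 := R.submod (fun v => (y v.1.1, a v.2)) (fun v => (x v.1.1 + t • a v.1.2, a v.2))
    (fun v => a v.2) (fun v => (y v.1.1, x v.1.1 + t • a v.1.2, a v.2))
    (fun _ _ h => (Prod.ext_iff.1 h).2) (fun _ _ h => (Prod.ext_iff.1 h).2)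
    fun _ _ h1 h2 => by
      simp only [Prod.ext_iff] at h1 h2 ⊢
      exact ⟨h1.1, h2.1, h1.2⟩
  rw [hY, hd, hL1] at hμ1
  have hμ2 := R.subadd (fun v => x v.1.1 + a v.2 + t • a v.1.2)
    (fun v => x v.1.1 + t • a v.1.2) (fun v => (x v.1.1 + t • a v.1.2, a v.2))
    fun s t h1 h2 => by
      rw [add_right_comm, add_right_comm (x t.1.1), h2] at h1
      rw [h2, add_left_cancel h1]
  rw [hq] at hμ2
  have hD := sub3 R (fun v => x v.1.1) (fun v => t • a v.1.2) fun v => a v.2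
  have e1 : R.ent (fun v => (x v.1.1, a v.2, t • a v.1.2)) =
      R.ent (fun v => (x v.1.1, t • a v.1.2, a v.2)) :=
    R.ent_congr fun _ _ => by simp only [Prod.ext_iff, and_comm]
  have e2 : R.ent (fun v => t • a v.1.2) = P.ent a := by
    rw [gl_fst Q P y Prod.fst fun z => t • a z.2, ← cp_snd P x a]
    exact Q.ent_congr fun _ _ => smul_right_inj ht
  have e3 : R.ent (fun v => (x v.1.1, t • a v.1.2)) = L := by
    rw [gl_fst Q P y Prod.fst fun z => (x z.1, t • a z.2), hL, ← cp_snd P x]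
    exact Q.ent_congr' fun s t hs ht' => by
      rw [(cp_supp hs).2.2, (cp_supp ht').2.2]
      simp [Prod.ext_iff, smul_right_inj ht]
  rw [e1, e2, e3] at hD
  have k := h.two hr R (fun v => x v.1.1) (fun v => t • a v.1.2) fun v => a v.2
  have e4 : ∀ i, R.ent (fun v => x v.1.1 + r i • t • a v.1.2) =
      P.ent fun ω => x ω + (r i * t) • a ω := fun i => by
    rw [gl_fst Q P y Prod.fst fun z => x z.1 + r i • t • a z.2, ← cp_snd P x]
    exact Q.ent_congr' fun s t hs ht => by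
      rw [(cp_supp hs).2.2, (cp_supp ht).2.2, smul_smul, smul_smul]
  have e5 : ∀ c : ℚ, R.ent (fun v => x v.1.1 + c • a v.2) =
      Q'.ent fun z => x z.1 + s • a z.1 + (- s) • a z.1 + c • a z.2 := fun c => by
    rw [gl_marg hm y fun z => x z.1 + c • a z.2]
    exact congrArg _ (funext fun z => by module)
  simp only [e4, e5] at k
  have b1 : 0 ≤ 1 - β := by linarith
  have b2 : 0 ≤ 2 * β - 1 := by linarith
  have b3 : 0 ≤ β := by linarith
  have f1 := mul_le_mul_of_nonneg_left hμ1 b1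
  have f2 := mul_le_mul_of_nonneg_left hμ2 b1
  have f3 := mul_le_mul_of_nonneg_left hD b2
  have f4 := mul_le_mul_of_nonneg_left hT b3
  have f5 := mul_le_mul_of_nonneg_left hM b3
  linarith [k, f1, f2, f3, f4, f5]

variable (G) in
/-- A lower bound for the entropy of pairs of points. -/
def Pair (A C : ℝ) : Prop :=
  ∃ (ι : Type) (_ : Fintype ι) (w : FP ι) (b s t u : ι → ℚ), (∀ i, s i ≠ 0 ∧ t i ≠ 0) ∧
    ∀ (Ω : Type) [Fintype Ω] (P : FP Ω) (x a : Ω → G),
      A * P.ent (fun ω => (x ω, a ω)) + (2 + C - 2 * A) * P.ent a ≤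
        w.ex (fun i => Yv P (fun ω => x ω + b i • a ω) a (s i) (t i)) +
          C * w.ex fun i => P.ent fun ω => x ω + u i • a ω

theorem Pair.init : Pair G 2 2 := by
  refine ⟨Unit, inferInstance, ⟨fun _ => 1, fun _ => zero_le_one, by simp⟩, fun _ => 0,
    fun _ => 1, fun _ => 1, fun _ => 0, fun _ => ⟨one_ne_zero, one_ne_zero⟩, fun Ω _ P x a => ?_⟩
  simp only [ex_const, zero_smul, add_zero, Yv, one_smul]
  have h1 := cp_pair P x a a
  have h2 := (cp P x).subadd' (fun z => (x z.1 + a z.1, x z.2 + a z.2)) (fun z => x z.1)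
    (fun z => (x z.1, a z.1, a z.2)) fun s t hs ht h1 h2 => by
      rw [(cp_supp hs).2.2, (cp_supp ht).2.2] at h1
      simp only [Prod.ext_iff, h2, add_right_inj] at h1 ⊢
      exact ⟨trivial, h1⟩
  rw [h1, cp_fst P x x] at h2
  linarith

theorem Pair.kt {A C : ℝ} (h : Pair G A C) (hC : 0 ≤ C) : KT G (1 - A / (2 + C)) := by
  obtain ⟨ι, _, w, b, s, t, u, -, h⟩ := h
  have hW : 0 < 2 + C := by linarith
  refine KT.of_sum hW (k := 3) ![1, 1, C] (fun j => by fin_cases j <;> simp [hC])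
    (by simp [Fin.sum_univ_three]; ring) w ![fun i => b i + s i, fun i => b i + t i, u]
    fun Ω _ P x a => ?_
  have h1 := h Ω P x a
  have h2 := w.ex_mono (G := fun i => P.ent (fun ω => x ω + (b i + s i) • a ω) +
      P.ent fun ω => x ω + (b i + t i) • a ω)
    (F := fun i => Yv P (fun ω => x ω + b i • a ω) a (s i) (t i)) fun i _ => by
      simp only [add_smul, ← add_assoc]
      rw [← cp_fst P (fun ω => x ω + b i • a ω) fun ω => x ω + b i • a ω + s i • a ω,
        ← cp_snd P (fun ω => x ω + b i • a ω) fun ω => x ω + b i • a ω + t i • a ω]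
      exact FP.subadd _ _ _ _ fun _ _ h1 h2 => Prod.ext h1 h2
  rw [ex_add] at h2
  simp only [Fin.sum_univ_three, Matrix.cons_val]
  have e : (2 + C) * ((2 * (1 - A / (2 + C)) - 1) * P.ent a +
      (1 - (1 - A / (2 + C))) * P.ent fun ω => (x ω, a ω)) =
      A * P.ent (fun ω => (x ω, a ω)) + (2 + C - 2 * A) * P.ent a := by
    field_simp
    ring
  rw [e]
  linarith

theorem Pair.step {β A C : ℝ} (h : KT G β) (h0 : 1 / 2 ≤ β) (h1 : β ≤ 1) (hp : Pair G A C)
    (hC : 0 ≤ C) : Pair G ((1 - β) ^ 2 * A + 2 - β) ((1 - β) ^ 2 * C + 3 - 2 * β) := by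
  obtain ⟨κ, _, v, r, hr, h⟩ := h
  obtain ⟨ι, _, w, b, s, t, u, hst, hp⟩ := hp
  have b1 : 0 ≤ 1 - β := by linarith
  have b2 : 0 ≤ (1 - β) ^ 2 := sq_nonneg _
  have b3 := mul_nonneg b2 hC
  have hr0 : ∀ i, r i ≠ 0 := fun i => by linarith [hr i]
  have hr' : ∀ i, r i / (r i - 1) ≠ 0 := fun i => div_ne_zero (hr0 i) (by linarith [hr i])
  obtain ⟨w0, hw⟩ := exists_w (W := (1 - β) ^ 2 * C + 3 - 2 * β) (by linarith) (k := 5)
    ![(1 - β) ^ 2 * C, 1 - β, β * (1 - β), 1, (1 - β) ^ 2]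
    (fun j => by fin_cases j <;> simp <;> first | positivity | linarith)
    (by simp [Fin.sum_univ_five]; ring)
  refine ⟨Fin 5 × ι × κ × κ, inferInstance, w0.prod (w.prod (v.prod v)),
    fun z => b z.2.1 + s z.2.1, fun z => r z.2.2.2 / (r z.2.2.2 - 1) * - s z.2.1,
    fun z => r z.2.2.2 * (r z.2.2.1 / (r z.2.2.1 - 1)),
    fun z => ![u z.2.1, b z.2.1 + r z.2.2.1 * t z.2.1, b z.2.1, b z.2.1 + s z.2.1,
      b z.2.1 + t z.2.1] z.1,
    fun z => ⟨mul_ne_zero (hr' _) (neg_ne_zero.2 (hst _).1), mul_ne_zero (hr0 _) (hr' _)⟩,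
    fun Ω _ P x a => ?_⟩
  have k0 := hp Ω P x a
  have k1 := w.ex_mono fun i _ =>
    h.corner hr h0 h1 P (fun ω => x ω + b i • a ω) a (hst i).1 (hst i).2
  have k2 := w.ex_mono fun i _ => v.ex_mono fun j _ =>
    h.basic hr h0 P (fun ω => x ω + b i • a ω + s i • a ω) a (neg_ne_zero.2 (hst i).1) (hr' j)
  simp only [ex_prod, ex_const]
  rw [hw]
  simp only [Fin.sum_univ_five, Matrix.cons_val, ex_const, add_smul, ← add_assoc]
  simp only [ent_shift, ex_add, ex_const, ex_const_mul] at k1 k2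
  have f1 := mul_le_mul_of_nonneg_left k0 b2
  have f2 := mul_le_mul_of_nonneg_left k1 b1
  linarith [f1, f2, k2]

/-- The first coefficient. -/
def pa (β : ℝ) : ℕ → ℝ
  | 0 => 2
  | k + 1 => (1 - β) ^ 2 * pa β k + 2 - β

/-- The second coefficient. -/
def pc (β : ℝ) : ℕ → ℝ
  | 0 => 2
  | k + 1 => (1 - β) ^ 2 * pc β k + 3 - 2 * β

theorem KT.adv {β γ : ℝ} (h : KT G β) (h0 : 1 / 2 ≤ β) (h1 : β ≤ 1) (h2 : 1 / 2 < γ)
    (h3 : γ ≤ 1 - pa β 6 / (2 + pc β 6)) : KT G γ := by
  have : ∀ k, Pair G (pa β k) (pc β k) ∧ 0 ≤ pc β k := by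
    intro k
    induction k with
    | zero => exact ⟨Pair.init, zero_le_two⟩
    | succ k ih =>
      refine ⟨ih.1.step h h0 h1 ih.2, ?_⟩
      have := mul_nonneg (sq_nonneg (1 - β)) ih.2
      simp only [pc]
      linarith
  exact ((this 6).1.kt (this 6).2).mono h2 h3

theorem KT.best : KT G 0.5969 := by
  have h1 : KT G 0.5714 := KT.half.adv le_rfl (by norm_num) (by norm_num) (by norm_num [pa, pc])
  have h2 : KT G 0.5906 := h1.adv (by norm_num) (by norm_num) (by norm_num) (by norm_num [pa, pc])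
  have h3 : KT G 0.5954 := h2.adv (by norm_num) (by norm_num) (by norm_num) (by norm_num [pa, pc])
  have h4 : KT G 0.5965 := h3.adv (by norm_num) (by norm_num) (by norm_num) (by norm_num [pa, pc])
  have h5 : KT G 0.5968 := h4.adv (by norm_num) (by norm_num) (by norm_num) (by norm_num [pa, pc])
  exact h5.adv (by norm_num) (by norm_num) (by norm_num) (by norm_num [pa, pc])

end Pool.Agent.Work.MP_72ad00_an
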