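import Pool.Agent.Work.MP_72ad00_an.Plane

/-!
From the entropy inequality for planes to covering numbers.
-/

set_option autoImplicit false

open Finset Real

namespace Pool.Agent.Work.MP_72ad00_an

open Pool.Agent.Lib.PFR Pool.Agent.Lib.PFR.FP

/-- The integers within `K` of `z`. -/
noncomputable def near (z K : ℝ) : Finset ℤ := Icc ⌈z - K⌉ ⌊z + K⌋

theorem mem_near {z K : ℝ} {i : ℤ} (h : |(i : ℝ) - z| ≤ K) : i ∈ near z K := by
  rw [abs_le] at h
  exact mem_Icc.2 ⟨Int.ceil_le.2 (by linarith [h.1]), Int.le_floor.2 (by linarith [h.2])⟩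

theorem card_near (z : ℝ) {K : ℝ} (hK : 0 ≤ K) : ((near z K).card : ℝ) ≤ 2 * K + 1 := by
  rw [near, Int.card_Icc]
  have h1 := Int.floor_le (z + K)
  have h2 := Int.le_ceil (z - K)
  rcases le_total 0 (⌊z + K⌋ + 1 - ⌈z - K⌉) with h | h
  · have : (((⌊z + K⌋ + 1 - ⌈z - K⌉).toNat : ℤ) : ℝ) = ((⌊z + K⌋ + 1 - ⌈z - K⌉ : ℤ) : ℝ) := by
      rw [Int.toNat_of_nonneg h]
    push_cast at this
    rw [this]
    linarith only [h1, h2]
  · rw [Int.toNat_eq_zero.2 h]
    push_cast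
    linarith only [hK]

theorem card_grid (z c δ : ℝ) (hδ : 0 < δ) (L : ℕ) :
    (((range L).filter fun i : ℕ => |c + δ * i - z| ≤ δ).card : ℝ) ≤ 3 := by
  have h := card_near ((z - c) / δ) zero_le_one
  refine le_trans ?_ (h.trans (by norm_num))
  refine Nat.cast_le.2 (card_le_card_of_injOn (fun i : ℕ => (i : ℤ)) (fun i hi => ?_)
    fun i _ j _ h => Nat.cast_injective (R := ℤ) h)
  have h1 := (mem_filter.1 (mem_coe.1 hi)).2
  refine mem_coe.2 (mem_near ?_)
  have : ((i : ℤ) : ℝ) - (z - c) / δ = (c + δ * i - z) / δ := by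
    push_cast
    field_simp
    ring
  rw [this, abs_div, abs_of_pos hδ, div_le_one hδ]
  exact h1

theorem exists_base {X κ : Type} [Fintype κ] (T : Finset X) (φ : X → ℝ × ℝ) (c : κ → ℝ × ℝ)
    {δ : ℝ} (hδ : 0 < δ) {L : ℕ} (hL : 0 < L) :
    ∃ i < L, ∃ j < L, ∀ k, ((T.filter fun t =>
      dist (((c k).1 + δ * i, (c k).2 + δ * j) : ℝ × ℝ) (φ t) ≤ δ).card : ℝ) ≤
        9 * Fintype.card κ * T.card / (L : ℝ) ^ 2 := by
  classical
  set f : ℕ × ℕ → κ → ℝ := fun z k => ((T.filter fun t =>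
      dist (((c k).1 + δ * z.1, (c k).2 + δ * z.2) : ℝ × ℝ) (φ t) ≤ δ).card : ℝ) with hf
  have h1 : ∀ k, ∑ z ∈ range L ×ˢ range L, f z k ≤ 9 * T.card := by
    intro k
    simp only [hf, card_filter, Nat.cast_sum]
    rw [sum_comm, mul_comm, ← nsmul_eq_mul, ← sum_const]
    refine sum_le_sum fun t _ => ?_
    rw [← Nat.cast_sum, ← card_filter]
    have a1 := card_grid (φ t).1 (c k).1 δ hδ L
    have a2 := card_grid (φ t).2 (c k).2 δ hδ L
    have a3 : ((range L ×ˢ range L).filter fun z : ℕ × ℕ =>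
        dist (((c k).1 + δ * z.1, (c k).2 + δ * z.2) : ℝ × ℝ) (φ t) ≤ δ) ⊆
        ((range L).filter fun i : ℕ => |(c k).1 + δ * i - (φ t).1| ≤ δ) ×ˢ
          ((range L).filter fun i : ℕ => |(c k).2 + δ * i - (φ t).2| ≤ δ) := by
      intro z hz
      simp only [mem_filter, mem_product, Prod.dist_eq, Real.dist_eq, max_le_iff] at hz ⊢
      exact ⟨⟨hz.1.1, hz.2.1⟩, hz.1.2, hz.2.2⟩
    have a4 := card_le_card a3
    rw [card_product] at a4
    refine (Nat.cast_le.2 a4).trans ?_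
    push_cast
    nlinarith only [a1, a2, Nat.cast_nonneg (α := ℝ)
      ((range L).filter fun i : ℕ => |(c k).2 + δ * i - (φ t).2| ≤ δ).card]
  have hL' : (0 : ℝ) < (L : ℝ) ^ 2 := by positivity
  have h2 : ∑ z ∈ range L ×ˢ range L, ∑ k, f z k ≤
      ∑ _z ∈ range L ×ˢ range L, 9 * Fintype.card κ * T.card / (L : ℝ) ^ 2 := by
    rw [sum_comm, sum_const, card_product, card_range, nsmul_eq_mul]
    refine (sum_le_sum fun k _ => h1 k).trans (le_of_eq ?_)
    rw [sum_const, card_univ, nsmul_eq_mul]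
    push_cast
    field_simp
  obtain ⟨z, hz, h3⟩ := exists_le_of_sum_le
    ⟨(0, 0), mem_product.2 ⟨mem_range.2 hL, mem_range.2 hL⟩⟩ h2
  obtain ⟨z1, z2⟩ := mem_product.1 hz
  refine ⟨z.1, mem_range.1 z1, z.2, mem_range.1 z2, fun k => le_trans ?_ h3⟩
  exact single_le_sum (f := f z) (fun k _ => Nat.cast_nonneg _) (mem_univ k)

/-- The uniform law. -/
noncomputable def uni (Ω : Type) [Fintype Ω] [Nonempty Ω] : FP Ω where
  p _ := (Fintype.card Ω : ℝ)⁻¹
  nonneg _ := by positivity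
  sum_one := by
    rw [sum_const, card_univ, nsmul_eq_mul]
    exact mul_inv_cancel₀ (by exact_mod_cast Fintype.card_ne_zero)

theorem ent_uni (Ω : Type) [Fintype Ω] [Nonempty Ω] :
    (uni Ω).ent (fun ω => ω) = log (Fintype.card Ω) := by
  rw [ent, ← (uni Ω).ex_const (log (Fintype.card Ω))]
  refine FP.ex_congr _ fun ω _ => ?_
  rw [pv, pr_eq_self]
  simp [uni]

theorem exists_den {κ : Type} [Fintype κ] (u : κ → ℚ × ℚ) :
    ∃ D : ℕ, 0 < D ∧ ∀ k, ∃ p q : ℤ, (u k).1 * D = p ∧ (u k).2 * D = q := by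
  classical
  refine ⟨∏ k, (u k).1.den * (u k).2.den,
    prod_pos fun k _ => mul_pos (u k).1.den_pos (u k).2.den_pos, fun k => ?_⟩
  obtain ⟨e, he⟩ := dvd_prod_of_mem (fun k => (u k).1.den * (u k).2.den) (mem_univ k)
  refine ⟨(u k).1.num * (u k).2.den * e, (u k).2.num * (u k).1.den * e, ?_, ?_⟩
  · rw [he]
    push_cast
    rw [← Rat.mul_den_eq_num]
    ring
  · rw [he]
    push_cast
    rw [← Rat.mul_den_eq_num]
    ring

theorem core {m : ℕ} {c : ℝ} (hp : PK (Fin m → ℚ) c) (hc0 : 0 ≤ c) (hc1 : c ≤ 1)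
    (K : Set ((Fin m → ℝ) × (ℝ × ℝ))) {ρ r : ℝ} (hρ : 0 < ρ) (hr : 0 < r) (u0 : ℝ × ℝ)
    (a0 b0 : Fin m → ℝ)
    (hK : ∀ a b : Fin m → ℝ, dist a a0 < r → dist b b0 < r → ∀ ε > 0, ∃ a' b' x : Fin m → ℝ,
      dist a a' < ε ∧ dist b b' < ε ∧ ∀ u : ℝ × ℝ, dist u u0 < ρ →
        (x + u.1 • a' + u.2 • b', u) ∈ K) :
    ∃ C > 0, ∃ δ0 > 0, ∀ δ : ℝ, 0 < δ → δ ≤ δ0 → ∀ T : Finset ((Fin m → ℝ) × (ℝ × ℝ)),
      K ⊆ ⋃ t ∈ T, Metric.closedBall t δ → C * δ ^ (-(2 + (1 - c) * m)) ≤ T.card := by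
  classical
  obtain ⟨κ, _, w, u, hu, hp⟩ := hp
  obtain ⟨D, hD, hden⟩ := exists_den u
  choose p q hp1 hq1 using hden
  obtain ⟨B, hB⟩ := Finite.exists_le fun k => (((u k).1 + (u k).2 : ℚ) : ℝ)
  obtain ⟨k0, -⟩ := w.exists_supp
  have hu1 : ∀ k, (0 : ℝ) < (u k).1 := fun k => by exact_mod_cast (hu k).1
  have hu2 : ∀ k, (0 : ℝ) < (u k).2 := fun k => by exact_mod_cast (hu k).2
  push_cast at hB
  have hB0 : 0 < B := by linarith only [hB, hu1, hu2, hB k0, hu1 k0, hu2 k0]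
  have hD' : (0 : ℝ) < D := by exact_mod_cast hD
  have hκ : (0 : ℝ) < Fintype.card κ := by
    exact_mod_cast Fintype.card_pos_iff.2 ⟨k0⟩
  set σ := ρ / (4 * B) with hσ
  have hσ0 : 0 < σ := by positivity
  have hσu : ∀ k, σ * (u k).1 + σ * (u k).2 ≤ ρ / 4 := fun k => by
    rw [← mul_add]
    refine (mul_le_mul_of_nonneg_left (hB k) hσ0.le).trans (le_of_eq ?_)
    rw [hσ]
    field_simp
  set K0 := 1 + (ρ / 4 + 1) * D / σ with hK0
  have hK00 : 0 ≤ K0 := by positivity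
  set s := (1 - c) * m with hs
  have hs0 : 0 ≤ s := mul_nonneg (by linarith only [hc1]) (Nat.cast_nonneg _)
  refine ⟨(ρ / 8) ^ 2 * (r / 4) ^ s / (9 * Fintype.card κ * (2 * K0 + 1) ^ m), by positivity,
    min (ρ / 8) (r / 4), by positivity, fun δ hδ hδ0 T hT => ?_⟩
  have hδ1 := hδ0.trans (min_le_left _ _)
  have hδ2 := hδ0.trans (min_le_right _ _)
  set L := ⌊ρ / (4 * δ)⌋₊ with hL
  set M := ⌊r / (2 * δ)⌋₊ with hM
  have hL1 : (L : ℝ) ≤ ρ / (4 * δ) := Nat.floor_le (by positivity)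
  have hM1 : (M : ℝ) ≤ r / (2 * δ) := Nat.floor_le (by positivity)
  have hL2 : ρ / 8 / δ ≤ L := by
    have h1 := Nat.lt_floor_add_one (ρ / (4 * δ))
    have h2 : 1 ≤ ρ / 8 / δ := (one_le_div hδ).2 hδ1
    have h3 : ρ / (4 * δ) = 2 * (ρ / 8 / δ) := by field_simp; ring
    rw [← hL] at h1
    linarith only [h1, h2, h3]
  have hM2 : r / 4 / δ ≤ M := by
    have h1 := Nat.lt_floor_add_one (r / (2 * δ))
    have h2 : 1 ≤ r / 4 / δ := (one_le_div hδ).2 hδ2
    have h3 : r / (2 * δ) = 2 * (r / 4 / δ) := by field_simp; ring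
    rw [← hM] at h1
    linarith only [h1, h2, h3]
  have hL0 : (0 : ℝ) < L := lt_of_lt_of_le (by positivity) hL2
  have hM0 : (0 : ℝ) < M := lt_of_lt_of_le (by positivity) hM2
  have hL3 : δ * L ≤ ρ / 4 := by
    refine (mul_le_mul_of_nonneg_left hL1 hδ.le).trans (le_of_eq ?_)
    field_simp
  have hM3 : δ * M ≤ r / 2 := by
    refine (mul_le_mul_of_nonneg_left hM1 hδ.le).trans (le_of_eq ?_)
    field_simp
  obtain ⟨i0, hi0, j0, hj0, hn⟩ := exists_base T Prod.snd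
    (fun k => (u0.1 + σ * (u k).1, u0.2 + σ * (u k).2)) hδ (Nat.cast_pos.1 hL0)
  have : Nonempty (Fin M) := ⟨⟨0, Nat.cast_pos.1 hM0⟩⟩
  have hgrid : ∀ (c0 : Fin m → ℝ) (i : Fin m → Fin M),
      dist (fun l => c0 l + δ * (i l : ℕ)) c0 < r := fun c0 i => by
    clear * - m c0 δ M i r hr hδ hδ2 hM3
    refine (dist_pi_lt_iff hr).2 fun l => ?_
    have h1 : ((i l : ℕ) : ℝ) ≤ M := by exact_mod_cast (i l).2.le
    rw [Real.dist_eq, add_sub_cancel_left, abs_of_nonneg (by positivity)]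
    (refine lt_of_not_ge fun h_nl => ?_; linarith only [h_nl, hδ, hδ2, hM3, hr, h1, mul_nonneg_of_nonpos_of_nonpos (Mathlib.Tactic.Linarith.sub_nonpos_of_le (Mathlib.Tactic.Linarith.natCast_nonneg ℝ M)) (Mathlib.Tactic.Linarith.sub_nonpos_of_le h_nl), mul_nonneg_of_nonpos_of_nonpos (Mathlib.Tactic.Linarith.sub_nonpos_of_le (Mathlib.Tactic.Linarith.natCast_nonneg ℝ ↑(i l))) (Mathlib.Tactic.Linarith.sub_nonpos_of_le hδ2), mul_nonneg_of_nonpos_of_nonpos (Mathlib.Tactic.Linarith.sub_nonpos_of_le (Mathlib.Tactic.Linarith.natCast_nonneg ℝ ↑(i l))) (Mathlib.Tactic.Linarith.sub_nonpos_of_le hM3), mul_nonneg_of_nonpos_of_nonpos (le_of_lt (Mathlib.Tactic.Linarith.sub_neg_of_lt hr)) (Mathlib.Tactic.Linarith.sub_nonpos_of_le h1)])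
  choose a' b' x ha' hb' hx using fun ω : (Fin m → Fin M) × (Fin m → Fin M) =>
    hK _ _ (hgrid a0 ω.1) (hgrid b0 ω.2) δ hδ
  set η := σ * δ / D with hη
  have hη0 : 0 < η := by positivity
  set v1 := u0.1 + δ * i0 with hv1
  set v2 := u0.2 + δ * j0 with hv2
  set P := uni ((Fin m → Fin M) × (Fin m → Fin M)) with hP
  set X : (Fin m → Fin M) × (Fin m → Fin M) → Fin m → ℤ :=
    fun ω l => ⌊(x ω l + v1 * a' ω l + v2 * b' ω l) / η⌋ with hX
  set A : (Fin m → Fin M) → Fin m → ℚ := fun i l => D * (i l : ℕ) with hA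
  have hAinj : Function.Injective A := fun i j h => funext fun l => by
    have h1 := congrFun h l
    simp only [hA] at h1
    have h2 : (D : ℚ) ≠ 0 := by exact_mod_cast hD.ne'
    exact Fin.ext (by exact_mod_cast mul_left_cancel₀ h2 h1)
  have hc : log (Fintype.card (Fin m → Fin M)) = m * log M := by
    simp
  have e1 : P.ent (fun ω => A ω.1) ≤ m * log M := by
    rw [← hc]
    exact (P.ent_mono (f := Prod.fst) fun _ _ h => by rw [h]).trans
      (P.ent_le_log _ univ fun _ _ => mem_univ _)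
  have e2 : P.ent (fun ω => A ω.2) ≤ m * log M := by
    rw [← hc]
    exact (P.ent_mono (f := Prod.snd) fun _ _ h => by rw [h]).trans
      (P.ent_le_log _ univ fun _ _ => mem_univ _)
  have e3 : 2 * (m * log M) ≤ P.ent (fun ω => (A ω.1, A ω.2)) := by
    have h1 : P.ent (fun ω => ω) ≤ P.ent (fun ω => (A ω.1, A ω.2)) :=
      P.ent_mono fun _ _ h => Prod.ext (hAinj (Prod.ext_iff.1 h).1) (hAinj (Prod.ext_iff.1 h).2)
    rw [hP, ent_uni, Fintype.card_prod, Nat.cast_mul, log_mul (by positivity) (by positivity),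
      hc] at h1
    linarith only [this, h1]
  have e4 := hp _ P (fun ω l => (X ω l : ℚ)) (fun ω => A ω.1) (fun ω => A ω.2) _ e1 e2 e3
  have e5 : P.ent (fun ω => (A ω.1, A ω.2)) ≤
      P.ent (fun ω => (fun l => (X ω l : ℚ), A ω.1, A ω.2)) :=
    P.ent_mono fun _ _ h => (Prod.ext_iff.1 h).2
  set S := 9 * Fintype.card κ * T.card / (L : ℝ) ^ 2 * (2 * K0 + 1) ^ m with hS
  have e6 : ∀ k, P.ent (fun ω => (fun l => (X ω l : ℚ)) + (u k).1 • A ω.1 + (u k).2 • A ω.2) ≤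
      log S ∧ 0 < S := by
    clear * - κ u0 σ u δ i0 j0 m T a0 b0 η K0 S hK00 L hn ρ D hρ hD B hB0 hi0 hj0 hδ hσ0 hu1 hu2 hσu
      hδ1 hL3 M X p q x a' b' hT hx ha' hb' v1 v2 hp1 hq1 hη0 hη hv1 hv2 this P A hA
    intro k
    set U : ℝ × ℝ := (u0.1 + σ * (u k).1 + δ * i0, u0.2 + σ * (u k).2 + δ * j0) with hU
    set Z := (T.filter fun t => dist U t.2 ≤ δ).biUnion fun t => Fintype.piFinset fun l =>
      near ((t.1 l - σ * (u k).1 * a0 l - σ * (u k).2 * b0 l) / η) K0 with hZ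
    have z1 : (Z.card : ℝ) ≤ S := by
      clear * - m U δ T σ u k a0 b0 η K0 S hK00 κ L hn ρ D hρ hD B hB0
      refine (Nat.cast_le.2 card_biUnion_le).trans ?_
      push_cast
      refine (sum_le_sum (g := fun _ => (2 * K0 + 1) ^ m) fun t _ => ?_).trans ?_
      · rw [Fintype.card_piFinset]
        push_cast
        refine (prod_le_prod (g := fun _ => 2 * K0 + 1) (fun _ _ => Nat.cast_nonneg _)
          fun l _ => card_near _ hK00).trans ?_
        simp
      · rw [sum_const, nsmul_eq_mul]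
        exact mul_le_mul_of_nonneg_right (hn k) (by positivity)
    have hU0 : dist U u0 < ρ := by
      clear * - i0 L hi0 j0 hj0 δ hδ σ u k hσ0 hu1 hu2 ρ hσu U u0 hU B hδ1 hL3
      have a1 : (i0 : ℝ) ≤ L := by exact_mod_cast hi0.le
      have a2 : (j0 : ℝ) ≤ L := by exact_mod_cast hj0.le
      have a3 := mul_le_mul_of_nonneg_left a1 hδ.le
      have a4 := mul_le_mul_of_nonneg_left a2 hδ.le
      have a5 := mul_pos hσ0 (hu1 k)
      have a6 := mul_pos hσ0 (hu2 k)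
      have a7 : 0 ≤ δ * i0 := by positivity
      have a8 : 0 ≤ δ * j0 := by positivity
      have a9 := hσu k
      rw [Prod.dist_eq, max_lt_iff, Real.dist_eq, Real.dist_eq, abs_lt, abs_lt]
      simp only [hU]
      refine ⟨⟨?_, ?_⟩, ?_, ?_⟩ <;> linarith only [hδ, hδ1, a5, a7, hL3, a3, a6, a9, a8, a4]
    have z2 : ∀ ω, (fun l => X ω l + p k * (ω.1 l : ℕ) + q k * (ω.2 l : ℕ)) ∈ Z := by
      intro ω
      obtain ⟨t, ht, hd⟩ := Set.mem_iUnion₂.1 (hT (hx ω U hU0))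
      rw [Metric.mem_closedBall, Prod.dist_eq, max_le_iff] at hd
      refine mem_biUnion.2 ⟨t, mem_filter.2 ⟨ht, hd.2⟩, Fintype.mem_piFinset.2 fun l => ?_⟩
      refine mem_near ?_
      have d1 := (dist_le_pi_dist _ _ l).trans hd.1
      have d2 := (dist_le_pi_dist _ _ l).trans (ha' ω).le
      have d3 := (dist_le_pi_dist _ _ l).trans (hb' ω).le
      simp only [Real.dist_eq, Pi.add_apply, Pi.smul_apply, smul_eq_mul, hU, abs_le] at d1 d2 d3
      have d4 := Int.floor_le ((x ω l + v1 * a' ω l + v2 * b' ω l) / η)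
      have d5 := Int.lt_floor_add_one ((x ω l + v1 * a' ω l + v2 * b' ω l) / η)
      have p1 : (p k : ℝ) = (u k).1 * D := by exact_mod_cast (hp1 k).symm
      have q1 : (q k : ℝ) = (u k).2 * D := by exact_mod_cast (hq1 k).symm
      have a5 := mul_pos hσ0 (hu1 k)
      have a6 := mul_pos hσ0 (hu2 k)
      have a9 := mul_le_mul_of_nonneg_right (hσu k) hδ.le
      set e := (x ω l + σ * 0 + U.1 * a' ω l + U.2 * b' ω l - t.1 l) +
        σ * (u k).1 * (a0 l + δ * (ω.1 l : ℕ) - a' ω l) +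
        σ * (u k).2 * (b0 l + δ * (ω.2 l : ℕ) - b' ω l) with he
      have g1 : |e| ≤ (ρ / 4 + 1) * δ := by
        clear * - σ u k δ a0 l M m ω a' d2 a5 b0 b' d3 a6 e ρ x U t he u0 i0 j0 hU B d1 a9
        have b1 := mul_le_mul_of_nonneg_left d2.1 a5.le
        have b2 := mul_le_mul_of_nonneg_left d2.2 a5.le
        have b3 := mul_le_mul_of_nonneg_left d3.1 a6.le
        have b4 := mul_le_mul_of_nonneg_left d3.2 a6.le
        rw [abs_le, he]
        simp only [hU]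
        constructor <;> linarith only [d1, a9, b1, b3, b2, b4, d1.1, d1.2]
      have g2 : |e / η| ≤ (ρ / 4 + 1) * D / σ := by
        rw [abs_div, abs_of_pos hη0, div_le_iff₀ hη0]
        refine g1.trans (le_of_eq ?_)
        rw [hη]
        field_simp
      have g3 : ((X ω l + p k * (ω.1 l : ℕ) + q k * (ω.2 l : ℕ) : ℤ) : ℝ) -
          (t.1 l - σ * (u k).1 * a0 l - σ * (u k).2 * b0 l) / η =
          (X ω l - (x ω l + v1 * a' ω l + v2 * b' ω l) / η) + e / η := by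
        clear * - X ω l p k M m q t σ u a0 b0 η x v1 a' v2 b' e D p1 q1 U δ he hη u0 i0 hv1 j0 hv2
          hU hδ hσ0 ρ B
        push_cast
        rw [p1, q1, he, hη, hv1, hv2]
        simp only [hU]
        field_simp
        ring
      rw [g3]
      refine (abs_add_le _ _).trans (add_le_add ?_ g2)
      rw [abs_le]
      constructor <;> linarith only [d5, d4]
    have z3 : (0 : ℝ) < Z.card := by
      exact_mod_cast card_pos.2 ⟨_, z2 (Classical.arbitrary _)⟩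
    refine ⟨le_trans ?_ ((P.ent_le_log _ Z fun ω _ => z2 ω).trans (log_le_log z3 z1)),
      z3.trans_le z1⟩
    refine P.ent_mono fun ω ω' h => funext fun l => ?_
    have key : ∀ ω : (Fin m → Fin M) × (Fin m → Fin M),
        ((fun l => (X ω l : ℚ)) + (u k).1 • A ω.1 + (u k).2 • A ω.2) l =
        ((X ω l + p k * (ω.1 l : ℕ) + q k * (ω.2 l : ℕ) : ℤ) : ℚ) := fun ω => by
      simp only [Pi.add_apply, Pi.smul_apply, smul_eq_mul, hA]
      push_cast
      rw [← hp1 k, ← hq1 k]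
      ring
    rw [key, key, congrFun h l]
  have e7 := e4.trans (w.ex_le_const fun k _ => (e6 k).1)
  have hS0 := (e6 k0).2
  have e8 : s * log M ≤ log S := by
    have := mul_le_mul_of_nonneg_left (e3.trans e5) hc0
    rw [hs]
    linarith only [e7, this]
  have e9 : (r / 4 / δ) ^ s ≤ S := by
    clear * - r δ s M S hr hδ hM2 hs0 hM0 hS0 e8
    refine (rpow_le_rpow (by positivity) hM2 hs0).trans ?_
    rw [← log_rpow hM0] at e8
    exact (log_le_log_iff (by positivity) hS0).1 e8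
  have e10 : (ρ / 8 / δ) ^ 2 ≤ (L : ℝ) ^ 2 := pow_le_pow_left₀ (by positivity) hL2 2
  have e11 : (ρ / 8 / δ) ^ 2 * (r / 4 / δ) ^ s ≤ (L : ℝ) ^ 2 * S :=
    mul_le_mul e10 e9 (by positivity) (by positivity)
  have e12 : (L : ℝ) ^ 2 * S = T.card * (9 * Fintype.card κ * (2 * K0 + 1) ^ m) := by
    clear * - L S m T κ K0 hS hL0 hK00 hκ
    rw [hS]
    field_simp
  rw [div_mul_eq_mul_div, div_le_iff₀ (by positivity), ← e12]
  refine le_trans (le_of_eq ?_) e11
  rw [rpow_neg hδ.le, rpow_add hδ, div_rpow (by positivity) hδ.le, rpow_two]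
  have := rpow_pos_of_pos hδ s
  field_simp

end Pool.Agent.Work.MP_72ad00_an
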