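import Pool.Agent.Work.MP_72ad00_an.Geo
import Pool.Agent.Work.MP_72ad00_an.Adv

/-!
Covering numbers of the pieces of a set containing a translate of every plane.
-/

set_option autoImplicit false

open Finset Real

namespace Pool.Agent.Work.MP_72ad00_an

/-- Coordinates. -/
def emb {m : ℕ} (y : Fin m → ℝ) (u : ℝ × ℝ) : EuclideanSpace ℝ (Fin (m + 2)) :=
  WithLp.toLp 2 (Fin.cons u.1 (Fin.cons u.2 y : Fin (m + 1) → ℝ) : Fin (m + 2) → ℝ)

/-- The inverse coordinates. -/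
def crd {m : ℕ} (z : EuclideanSpace ℝ (Fin (m + 2))) : (Fin m → ℝ) × (ℝ × ℝ) :=
  (fun l => z l.succ.succ, z 0, z (Fin.succ 0))

theorem crd_emb {m : ℕ} (y : Fin m → ℝ) (u : ℝ × ℝ) : crd (emb y u) = (y, u) := rfl

theorem crd_inj {m : ℕ} {z z' : EuclideanSpace ℝ (Fin (m + 2))} (h : crd z = crd z') : z = z' := by
  simp only [crd, Prod.ext_iff] at h
  ext l
  refine Fin.cases h.2.1 (fun l => Fin.cases h.2.2 (fun l => congrFun h.1 l) l) l

theorem crd_dist {m : ℕ} (z z' : EuclideanSpace ℝ (Fin (m + 2))) :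
    dist (crd z) (crd z') ≤ dist z z' := by
  rw [Prod.dist_eq, Prod.dist_eq]
  exact max_le ((dist_pi_le_iff dist_nonneg).2 fun l => PiLp.dist_apply_le z z' _)
    (max_le (PiLp.dist_apply_le z z' _) (PiLp.dist_apply_le z z' _))

theorem emb_cont {m : ℕ} (x a b : Fin m → ℝ) :
    Continuous fun u : ℝ × ℝ => emb (x + u.1 • a + u.2 • b) u := by
  refine (PiLp.continuous_toLp 2 _).comp (continuous_pi fun l => ?_)
  refine Fin.cases continuous_fst (fun l => Fin.cases continuous_snd (fun l => ?_) l) l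
  show Continuous fun u : ℝ × ℝ => (x + u.1 • a + u.2 • b) l
  fun_prop

theorem exists_plane {m : ℕ} {E : Set (EuclideanSpace ℝ (Fin (m + 2)))}
    (hE : ∀ V : Submodule ℝ (EuclideanSpace ℝ (Fin (m + 2))), Module.finrank ℝ V = 2 →
      ∃ x, ∀ v ∈ V, x + v ∈ E) (a b : Fin m → ℝ) :
    ∃ x : Fin m → ℝ, ∀ u : ℝ × ℝ, emb (x + u.1 • a + u.2 • b) u ∈ E := by
  have hli : LinearIndependent ℝ ![emb a (1, 0), emb b (0, 1)] := by
    rw [LinearIndependent.pair_iff]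
    intro s t h
    have h1 := congrArg (fun z : EuclideanSpace ℝ (Fin (m + 2)) => z 0) h
    have h2 := congrArg (fun z : EuclideanSpace ℝ (Fin (m + 2)) => z (Fin.succ 0)) h
    simp [emb] at h1 h2
    exact ⟨h1, h2⟩
  obtain ⟨x0, hx⟩ := hE _ ((finrank_span_eq_card hli).trans (Fintype.card_fin 2))
  refine ⟨(crd x0).1 - (crd x0).2.1 • a - (crd x0).2.2 • b, fun u => ?_⟩
  have h1 := hx ((u.1 - (crd x0).2.1) • emb a (1, 0) + (u.2 - (crd x0).2.2) • emb b (0, 1))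
    (Submodule.add_mem _ (Submodule.smul_mem _ _ (Submodule.subset_span ⟨0, rfl⟩))
      (Submodule.smul_mem _ _ (Submodule.subset_span ⟨1, rfl⟩)))
  have h2 : emb ((crd x0).1 - (crd x0).2.1 • a - (crd x0).2.2 • b + u.1 • a + u.2 • b) u =
      x0 + ((u.1 - (crd x0).2.1) • emb a (1, 0) + (u.2 - (crd x0).2.2) • emb b (0, 1)) := by
    ext l
    refine Fin.cases ?_ (fun l => Fin.cases ?_ (fun l => ?_) l) l
    · simp [emb, crd]
    · simp [emb, crd]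
    · simp [emb, crd]
      ring
  rw [h2]
  exact h1

theorem baire {m : ℕ} {ι : Type} [Countable ι] (F : ι → Set (EuclideanSpace ℝ (Fin (m + 2))))
    (h : ∀ a b : Fin m → ℝ, ∃ x : Fin m → ℝ, ∀ u : ℝ × ℝ,
      emb (x + u.1 • a + u.2 • b) u ∈ ⋃ i, F i) :
    ∃ i, ∃ ρ > 0, ∃ r > 0, ∃ (u0 : ℝ × ℝ) (a0 b0 : Fin m → ℝ), ∀ a b : Fin m → ℝ,
      dist a a0 < r → dist b b0 < r → ∀ ε > 0, ∃ a' b' x : Fin m → ℝ,
        dist a a' < ε ∧ dist b b' < ε ∧ ∀ u : ℝ × ℝ, dist u u0 < ρ →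
          (x + u.1 • a' + u.2 • b', u) ∈ crd '' closure (F i) := by
  let A : ι × ℕ × ℕ → Set ((Fin m → ℝ) × (Fin m → ℝ)) := fun z =>
    {p | ∃ x : Fin m → ℝ, ∀ u : ℝ × ℝ,
      dist u (TopologicalSpace.denseSeq (ℝ × ℝ) z.2.1) < 1 / ((z.2.2 : ℝ) + 1) →
        emb (x + u.1 • p.1 + u.2 • p.2) u ∈ closure (F z.1)}
  have hA : ⋃ z, closure (A z) = Set.univ := by
    refine Set.eq_univ_of_forall fun p => ?_
    obtain ⟨x, hx⟩ := h p.1 p.2
    obtain ⟨i, u1, hu⟩ := nonempty_interior_of_iUnion_of_closed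
      (f := fun i => (fun u : ℝ × ℝ => emb (x + u.1 • p.1 + u.2 • p.2) u) ⁻¹' closure (F i))
      (fun i => isClosed_closure.preimage (emb_cont x p.1 p.2))
      (Set.eq_univ_of_forall fun u => by
        obtain ⟨i, hi⟩ := Set.mem_iUnion.1 (hx u)
        exact Set.mem_iUnion.2 ⟨i, subset_closure hi⟩)
    obtain ⟨ε, hε, hb⟩ := Metric.mem_nhds_iff.1 (mem_interior_iff_mem_nhds.1 hu)
    obtain ⟨k, hk⟩ := exists_nat_one_div_lt (half_pos hε)
    obtain ⟨j, hj⟩ := (TopologicalSpace.denseRange_denseSeq (ℝ × ℝ)).exists_dist_lt u1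
      (half_pos hε)
    refine Set.mem_iUnion.2 ⟨(i, j, k), subset_closure ⟨x, fun u h1 => hb ?_⟩⟩
    rw [Metric.mem_ball]
    have := dist_triangle_right u u1 (TopologicalSpace.denseSeq (ℝ × ℝ) j)
    simp only at h1
    linarith
  obtain ⟨z, p0, hp⟩ := nonempty_interior_of_iUnion_of_closed (fun z => isClosed_closure) hA
  obtain ⟨r, hr, hb⟩ := Metric.mem_nhds_iff.1 (mem_interior_iff_mem_nhds.1 hp)
  refine ⟨z.1, 1 / ((z.2.2 : ℝ) + 1), by positivity, r, hr,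
    TopologicalSpace.denseSeq (ℝ × ℝ) z.2.1, p0.1, p0.2, fun a b ha hb' ε hε => ?_⟩
  have h1 : (a, b) ∈ closure (A z) := hb (by
    rw [Metric.mem_ball, Prod.dist_eq]
    exact max_lt ha hb')
  obtain ⟨p, ⟨x, hx⟩, hd⟩ := Metric.mem_closure_iff.1 h1 ε hε
  rw [Prod.dist_eq, max_lt_iff] at hd
  exact ⟨p.1, p.2, x, hd.1, hd.2, fun u hu => ⟨_, hx u hu, crd_emb _ _⟩⟩

theorem main {c : ℝ} (hp : ∀ m : ℕ, PK (Fin m → ℚ) c) (hc0 : 0 ≤ c) (hc1 : c ≤ 1) (n : ℕ)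
    (hn : 2 ≤ n) (E : Set (EuclideanSpace ℝ (Fin n)))
    (hE : ∀ V : Submodule ℝ (EuclideanSpace ℝ (Fin n)), Module.finrank ℝ V = 2 →
      ∃ x, ∀ v ∈ V, x + v ∈ E)
    (F : ℕ → Set (EuclideanSpace ℝ (Fin n))) (hF : E ⊆ ⋃ i, F i) :
    ∃ (i : ℕ) (R : ℝ), ∃ C > 0, ∀ δ : ℝ, 0 < δ → δ ≤ 1 →
      ∀ T : Finset (EuclideanSpace ℝ (Fin n)),
        F i ∩ Metric.closedBall 0 R ⊆ ⋃ t ∈ T, Metric.closedBall t δ →
          C * δ ^ (-((n : ℝ) - c * ((n : ℝ) - 2))) ≤ T.card := by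
  classical
  obtain ⟨m, rfl⟩ := Nat.exists_eq_add_of_le' hn
  obtain ⟨z, ρ, hρ, r, hr, u0, a0, b0, hK⟩ := baire
    (fun z : ℕ × ℕ => F z.1 ∩ Metric.closedBall 0 z.2) fun a b => by
      obtain ⟨x, hx⟩ := exists_plane hE a b
      refine ⟨x, fun u => ?_⟩
      obtain ⟨i, hi⟩ := Set.mem_iUnion.1 (hF (hx u))
      obtain ⟨R, hR⟩ := exists_nat_ge (dist (emb (x + u.1 • a + u.2 • b) u) 0)
      exact Set.mem_iUnion.2 ⟨(i, R), hi, hR⟩
  obtain ⟨C, hC, δ0, hδ0, h⟩ := core (hp m) hc0 hc1 _ hρ hr u0 a0 b0 hK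
  have e1 : (((m + 2 : ℕ) : ℝ) - c * (((m + 2 : ℕ) : ℝ) - 2)) = 2 + (1 - c) * m := by
    push_cast
    ring
  rw [e1]
  set s := 2 + (1 - c) * m with hs
  have hs0 : 0 ≤ s := add_nonneg zero_le_two (mul_nonneg (by linarith) (Nat.cast_nonneg _))
  have h2 : ∀ δ : ℝ, 0 < δ → δ ≤ δ0 → ∀ T : Finset (EuclideanSpace ℝ (Fin (m + 2))),
      F z.1 ∩ Metric.closedBall 0 z.2 ⊆ ⋃ t ∈ T, Metric.closedBall t δ →
        C * δ ^ (-s) ≤ T.card := by
    intro δ hδ hδ1 T hT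
    refine (h δ hδ hδ1 (T.image crd) ?_).trans (Nat.cast_le.2 card_image_le)
    rintro _ ⟨y, hy, rfl⟩
    have h3 := closure_minimal hT
      (T.finite_toSet.isClosed_biUnion fun _ _ => Metric.isClosed_closedBall) hy
    obtain ⟨t, ht, hd⟩ := Set.mem_iUnion₂.1 h3
    exact Set.mem_iUnion₂.2 ⟨crd t, mem_image_of_mem _ ht, (crd_dist _ _).trans hd⟩
  refine ⟨z.1, z.2, min C (δ0 ^ s), by positivity, fun δ hδ _ T hT => ?_⟩
  rcases le_total δ δ0 with h3 | h3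
  · exact (mul_le_mul_of_nonneg_right (min_le_left _ _) (by positivity)).trans (h2 δ hδ h3 T hT)
  · rcases T.eq_empty_or_nonempty with rfl | hne
    · have h4 := h2 δ0 hδ0 le_rfl ∅ (by simpa using hT)
      have h5 : 0 < C * δ0 ^ (-s) := by positivity
      simp only [card_empty, Nat.cast_zero] at h4
      linarith
    · have h4 : (1 : ℝ) ≤ T.card := by exact_mod_cast hne.card_pos
      refine le_trans ?_ h4
      refine (mul_le_mul_of_nonneg_right ((min_le_right _ _).trans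
        (rpow_le_rpow hδ0.le h3 hs0)) (by positivity)).trans (le_of_eq ?_)
      rw [← rpow_add hδ, add_neg_cancel, rpow_zero]

theorem best : ∃ c : ℝ, 0 ≤ c ∧ c ≤ 0.1518 ∧ ∀ m : ℕ, PK (Fin m → ℚ) c := by
  refine ⟨_, ?_, ?_, fun m => PK.step KT.best (by norm_num) (by norm_num)
    (PK.step KT.best (by norm_num) (by norm_num) (PK.base KT.best (by norm_num) (by norm_num))
      (by norm_num)) (by norm_num)⟩ <;> norm_num

end Pool.Agent.Work.MP_72ad00_an
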