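import Pool.Agent.Lib.PFR.Constr

/-!
The mixed Katz-Tao inequalities in entropy form.
-/

set_option autoImplicit false

open Finset Real

namespace Pool.Agent.Work.MP_72ad00_an

open Pool.Agent.Lib.PFR Pool.Agent.Lib.PFR.FP

section copy

variable {Ω S T U : Type} [Fintype Ω]

/-- Two copies of the space, conditionally independent given `W`. -/
noncomputable def cp (P : FP Ω) (W : Ω → S) : FP (Ω × Ω) := P.mix (P.fib W)

theorem cp_map_fst (P : FP Ω) (W : Ω → S) : (cp P W).map Prod.fst = P :=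
  ext_ex fun F => by simp only [cp, ex_map, ex_mix, ex_const]

theorem cp_map_snd (P : FP Ω) (W : Ω → S) : (cp P W).map Prod.snd = P :=
  ext_ex fun F => by
    simp only [cp, ex_map, ex_mix]
    exact P.tower' W F

theorem cp_fst (P : FP Ω) (W : Ω → S) (f : Ω → T) :
    (cp P W).ent (fun z => f z.1) = P.ent f := by
  rw [← ent_map _ Prod.fst f, cp_map_fst]

theorem cp_snd (P : FP Ω) (W : Ω → S) (f : Ω → T) :
    (cp P W).ent (fun z => f z.2) = P.ent f := by
  rw [← ent_map _ Prod.snd f, cp_map_snd]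

theorem cp_supp {P : FP Ω} {W : Ω → S} {z : Ω × Ω} (h : (cp P W).p z ≠ 0) :
    P.p z.1 ≠ 0 ∧ P.p z.2 ≠ 0 ∧ W z.2 = W z.1 := by
  obtain ⟨h1, h2⟩ := mix_supp h
  exact ⟨h1, fib_supp h1 h2⟩

theorem cp_pair (P : FP Ω) (W : Ω → S) (f : Ω → T) (g : Ω → U) :
    (cp P W).ent (fun z => (W z.1, f z.1, g z.2)) =
      P.ent (fun ω => (W ω, f ω)) + P.ent (fun ω => (W ω, g ω)) - P.ent W := by
  have e1 : ∀ a b, (cp P W).pv (fun z => (W z.1, f z.1, g z.2)) (a, b) =
      P.pv (fun ω => (W ω, f ω)) a * (P.fib W a).pv g b := by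
    intro a b
    rw [pv, pr, cp, ex_mix, pv, pr, ← ex_mul_const]
    refine P.ex_congr fun s _ => ?_
    by_cases hs : W s = W a
    · rw [P.fib_congr W hs, pv, pr, ← ex_const_mul]
      refine FP.ex_congr _ fun ω _ => ?_
      rw [← ind_and]
      exact ind_congr (by simp [Prod.ext_iff, and_assoc])
    · rw [ind_neg (by simp [Prod.ext_iff, hs]), zero_mul, ← (P.fib W s).ex_const 0]
      refine FP.ex_congr _ fun ω _ => ?_
      exact ind_neg (by simp [Prod.ext_iff, hs])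
  have e2 := P.ex_ent_fib W g
  have e3 : P.ent (fun ω => (g ω, W ω)) = P.ent (fun ω => (W ω, g ω)) :=
    P.ent_congr fun _ _ => by simp [Prod.ext_iff, and_comm]
  rw [add_sub_assoc, ← e3, ← e2, ent, cp, ex_mix, ent, ← ex_add]
  refine P.ex_congr fun s hs => ?_
  rw [ent, ← (P.fib W s).ex_const (- log (P.pv (fun ω => (W ω, f ω)) s)), ← ex_add]
  refine FP.ex_congr _ fun ω hω => ?_
  have := e1 s ω
  rw [cp] at this
  rw [this, log_mul (P.pv_pos _ hs).ne' (FP.pv_pos _ _ hω).ne']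
  ring

section glue

variable {Ω' : Type} [Fintype Ω']

/-- A further copy of `P` glued to `Q` along `W`. -/
noncomputable def gl (Q : FP Ω') (P : FP Ω) (W : Ω → S) (φ : Ω' → Ω) : FP (Ω' × Ω) :=
  Q.mix fun z => P.fib W (φ z)

variable {Q : FP Ω'} {P : FP Ω} {φ : Ω' → Ω}

theorem gl_fst (Q : FP Ω') (P : FP Ω) (W : Ω → S) (φ : Ω' → Ω) (f : Ω' → T) :
    (gl Q P W φ).ent (fun z => f z.1) = Q.ent f := by
  have : (gl Q P W φ).map Prod.fst = Q :=
    ext_ex fun F => by simp only [gl, ex_map, ex_mix, ex_const]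
  rw [← ent_map _ Prod.fst f, this]

theorem gl_marg (h : Q.map φ = P) (W : Ω → S) (f : Ω × Ω → T) :
    (gl Q P W φ).ent (fun z => f (φ z.1, z.2)) = (cp P W).ent f := by
  have : (gl Q P W φ).map (fun z => (φ z.1, z.2)) = cp P W :=
    ext_ex fun F => by
      simp only [gl, cp, ex_map, ex_mix]
      rw [← Q.ex_map φ fun s => (P.fib W s).ex fun ω => F (s, ω), h]
  rw [← this, ent_map]

theorem gl_pair (h : Q.map φ = P) (W : Ω → S) (f : Ω' → T) (g : Ω → U) :
    (gl Q P W φ).ent (fun z => (W (φ z.1), f z.1, g z.2)) =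
      Q.ent (fun ω => (W (φ ω), f ω)) + P.ent (fun ω => (W ω, g ω)) - P.ent W := by
  have e1 : ∀ a b, (gl Q P W φ).pv (fun z => (W (φ z.1), f z.1, g z.2)) (a, b) =
      Q.pv (fun ω => (W (φ ω), f ω)) a * (P.fib W (φ a)).pv g b := by
    intro a b
    rw [pv, pr, gl, ex_mix, pv, pr, ← ex_mul_const]
    refine Q.ex_congr fun s _ => ?_
    by_cases hs : W (φ s) = W (φ a)
    · rw [P.fib_congr W hs, pv, pr, ← ex_const_mul]
      refine FP.ex_congr _ fun ω _ => ?_
      rw [← ind_and]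
      exact ind_congr (by simp [Prod.ext_iff, and_assoc])
    · rw [ind_neg (by simp [Prod.ext_iff, hs]), zero_mul, ← (P.fib W (φ s)).ex_const 0]
      refine FP.ex_congr _ fun ω _ => ?_
      exact ind_neg (by simp [Prod.ext_iff, hs])
  have e2 := P.ex_ent_fib W g
  have e3 : P.ent (fun ω => (g ω, W ω)) = P.ent (fun ω => (W ω, g ω)) :=
    P.ent_congr fun _ _ => by simp [Prod.ext_iff, and_comm]
  have e4 := Q.ex_map φ fun a => (P.fib W a).ent g
  rw [h] at e4
  rw [add_sub_assoc, ← e3, ← e2, e4, ent, gl, ex_mix, ent, ← ex_add]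
  refine Q.ex_congr fun s hs => ?_
  rw [ent, ← (P.fib W (φ s)).ex_const (- log (Q.pv (fun ω => (W (φ ω), f ω)) s)), ← ex_add]
  refine FP.ex_congr _ fun ω hω => ?_
  have := e1 s ω
  rw [gl] at this
  rw [this, log_mul (Q.pv_pos _ hs).ne' (FP.pv_pos _ _ hω).ne']
  ring

end glue

end copy

variable (G : Type) [AddCommGroup G] [Module ℚ G]

/-- The mixed inequality with exponent `β` for the weighted slopes `(w, r)`. -/
def Ineq (β : ℝ) {ι : Type} [Fintype ι] (w : FP ι) (r : ι → ℚ) : Prop :=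
  ∀ (Ω : Type) [Fintype Ω] (P : FP Ω) (y d : Ω → G),
    (2 * β - 1) * P.ent d + (1 - β) * P.ent (fun ω => (y ω, d ω)) ≤
      w.ex fun i => P.ent fun ω => y ω + r i • d ω

/-- The mixed inequality holds for some weighted slopes larger than one. -/
def KT (β : ℝ) : Prop :=
  ∃ (ι : Type) (_ : Fintype ι) (w : FP ι) (r : ι → ℚ), (∀ i, 1 < r i) ∧ Ineq G β w r

variable {G}

theorem Ineq.cond {β : ℝ} {ι : Type} [Fintype ι] {w : FP ι} {r : ι → ℚ} (h : Ineq G β w r)
    {Ω S : Type} [Fintype Ω] (P : FP Ω) (y d : Ω → G) (U : Ω → S) :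
    (1 - β) * P.ent U + (2 * β - 1) * P.ent (fun ω => (d ω, U ω)) +
      (1 - β) * P.ent (fun ω => (y ω, d ω, U ω)) ≤
      w.ex fun i => P.ent fun ω => (y ω + r i • d ω, U ω) := by
  have h1 := P.ex_mono (fun a _ => h Ω (P.fib U a) y d)
  rw [ex_add, ex_const_mul, ex_const_mul, ex_comm, ex_ent_fib, ex_ent_fib] at h1
  simp only [ex_ent_fib, ex_sub, ex_const] at h1
  have e3 : P.ent (fun ω => ((y ω, d ω), U ω)) = P.ent (fun ω => (y ω, d ω, U ω)) :=
    P.ent_congr fun _ _ => by simp [Prod.ext_iff, and_assoc]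
  rw [e3] at h1
  linarith

theorem exists_w {W : ℝ} (hW : 0 < W) {k : ℕ} (c : Fin k → ℝ) (hc : ∀ j, 0 ≤ c j)
    (hs : ∑ j, c j = W) : ∃ v : FP (Fin k), ∀ F : Fin k → ℝ, W * v.ex F = ∑ j, c j * F j := by
  refine ⟨⟨fun j => c j / W, fun j => div_nonneg (hc j) hW.le, by
    rw [← sum_div, hs, div_self hW.ne']⟩, fun F => ?_⟩
  rw [ex, mul_sum]
  refine sum_congr rfl fun j _ => ?_
  field_simp

theorem ent_shift {Ω : Type} [Fintype Ω] (P : FP Ω) (x a : Ω → G) (c : ℚ) :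
    P.ent (fun ω => (x ω + c • a ω, a ω)) = P.ent (fun ω => (x ω, a ω)) :=
  P.ent_congr fun _ _ => by
    simp only [Prod.ext_iff]
    constructor
    · rintro ⟨h1, h2⟩
      rw [h2] at h1
      exact ⟨add_right_cancel h1, h2⟩
    · rintro ⟨h1, h2⟩
      rw [h1, h2]
      exact ⟨rfl, rfl⟩

theorem KT.of_sum {β W : ℝ} (hW : 0 < W) {k : ℕ} (c : Fin k → ℝ) (hc : ∀ j, 0 ≤ c j)
    (hs : ∑ j, c j = W) {ι : Type} [Fintype ι] (w : FP ι) (r : Fin k → ι → ℚ)
    (h : ∀ (Ω : Type) [Fintype Ω] (P : FP Ω) (y d : Ω → G),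
      W * ((2 * β - 1) * P.ent d + (1 - β) * P.ent (fun ω => (y ω, d ω))) ≤
        ∑ j, c j * w.ex fun i => P.ent fun ω => y ω + r j i • d ω) : KT G β := by
  obtain ⟨w0, hw⟩ := exists_w hW c hc hs
  obtain ⟨B, hB⟩ := Finite.exists_le fun z : Fin k × ι => - r z.1 z.2
  refine ⟨Fin k × ι, inferInstance, w0.prod w, fun z => r z.1 z.2 + (B + 2),
    fun z => by linarith [hB z], fun Ω _ P y d => ?_⟩
  have h1 := h Ω P (fun ω => y ω + (B + 2) • d ω) d
  rw [ent_shift] at h1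
  rw [ex_prod]
  refine le_of_mul_le_mul_left (h1.trans (le_of_eq ?_)) hW
  rw [hw]
  have e2 : ∀ j i, (fun ω => y ω + (B + 2) • d ω + r j i • d ω) =
      fun ω => y ω + (r j i + (B + 2)) • d ω := fun j i => funext fun ω => by module
  simp only [e2]

theorem half_le {Ω : Type} [Fintype Ω] (P : FP Ω) (y d : Ω → G) :
    P.ent (fun ω => (y ω, d ω)) ≤
      P.ent (fun ω => y ω + (0 : ℚ) • d ω) + P.ent fun ω => y ω + (1 : ℚ) • d ω :=
  P.subadd _ _ _ fun a b h1 h2 => by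
    simp only [zero_smul, add_zero, one_smul] at h1 h2
    rw [h1] at h2
    rw [h1, add_left_cancel h2]

theorem KT.half : KT G (1 / 2) := by
  refine KT.of_sum (W := 2) (k := 2) two_pos ![1, 1] (fun j => by fin_cases j <;> simp)
    (by simp; norm_num) (⟨fun _ : Unit => 1, fun _ => zero_le_one, by simp⟩ : FP Unit)
    ![fun _ => 0, fun _ => 1] fun Ω _ P y d => ?_
  have := half_le P y d
  simp only [Fin.sum_univ_two, Matrix.cons_val_zero, Matrix.cons_val_one, ex_const]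
  linarith

theorem KT.mono {β γ : ℝ} (h : KT G β) (h0 : 1 / 2 < γ) (h1 : γ ≤ β) : KT G γ := by
  obtain ⟨ι, _, w, r, -, h⟩ := h
  refine KT.of_sum (W := 2 * β - 1) (k := 3) (by linarith) ![2 * γ - 1, β - γ, β - γ]
    (fun j => by fin_cases j <;> (simp; try linarith)) (by simp [Fin.sum_univ_three]; ring) w
    ![r, fun _ => 0, fun _ => 1] fun Ω _ P y d => ?_
  have f1 := mul_le_mul_of_nonneg_left (half_le P y d) (sub_nonneg.2 h1)
  have f2 := mul_le_mul_of_nonneg_left (h Ω P y d) (by linarith : 0 ≤ 2 * γ - 1)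
  simp only [Fin.sum_univ_three, Matrix.cons_val, ex_const]
  nlinarith [f1, f2]

/-- The projection from the point `z + e + d`. -/
theorem Ineq.two' {β : ℝ} {ι : Type} [Fintype ι] {w : FP ι} {r : ι → ℚ} (h : Ineq G β w r)
    (hr : ∀ i, 1 < r i) {Ω : Type} [Fintype Ω] (P : FP Ω) (z d e : Ω → G) :
    (1 - β) * P.ent (fun ω => z ω + e ω + d ω) +
      (2 * β - 1) * P.ent (fun ω => (z ω + e ω, d ω)) +
      (1 - β) * P.ent (fun ω => (z ω, d ω, e ω)) ≤
      w.ex fun i => P.ent fun ω => (z ω + r i • d ω, z ω + (r i / (r i - 1)) • e ω) := by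
  have h1 := h.cond P z d fun ω => z ω + e ω + d ω
  have e1 : P.ent (fun ω => (d ω, z ω + e ω + d ω)) = P.ent (fun ω => (z ω + e ω, d ω)) :=
    P.ent_congr fun _ _ => by
      simp only [Prod.ext_iff]
      constructor
      · rintro ⟨h1, h2⟩
        rw [h1] at h2
        exact ⟨add_right_cancel h2, h1⟩
      · rintro ⟨h1, h2⟩
        rw [h1, h2]
        exact ⟨rfl, rfl⟩
  have e2 : P.ent (fun ω => (z ω, d ω, z ω + e ω + d ω)) = P.ent (fun ω => (z ω, d ω, e ω)) :=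
    P.ent_congr fun _ _ => by
      simp only [Prod.ext_iff]
      constructor
      · rintro ⟨h1, h2, h3⟩
        rw [h1, h2] at h3
        exact ⟨h1, h2, add_left_cancel (add_right_cancel h3)⟩
      · rintro ⟨h1, h2, h3⟩
        rw [h1, h2, h3]
        exact ⟨rfl, rfl, rfl⟩
  rw [e1, e2] at h1
  refine h1.trans (w.ex_mono fun i _ => ?_)
  refine P.ent_mono fun a b h => ?_
  obtain ⟨h1, h2⟩ := Prod.ext_iff.1 h
  simp only at h1 h2
  have h0 : r i ≠ 0 := by linarith [hr i]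
  have h3 : r i - 1 ≠ 0 := by linarith [hr i]
  refine Prod.ext h1 ?_
  have k : ∀ ω, z ω + e ω + d ω = (r i)⁻¹ • (z ω + r i • d ω) +
      (1 - (r i)⁻¹) • (z ω + (r i / (r i - 1)) • e ω) := fun ω => by
    match_scalars
    · ring
    · field_simp
    · field_simp
  show z a + e a + d a = z b + e b + d b
  rw [k a, k b, h1, h2]

theorem Ineq.two {β : ℝ} {ι : Type} [Fintype ι] {w : FP ι} {r : ι → ℚ} (h : Ineq G β w r)
    (hr : ∀ i, 1 < r i) {Ω : Type} [Fintype Ω] (P : FP Ω) (z d e : Ω → G) :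
    (1 - β) * P.ent (fun ω => z ω + e ω + d ω) +
      (2 * β - 1) * P.ent (fun ω => (z ω + e ω, d ω)) +
      (1 - β) * P.ent (fun ω => (z ω, d ω, e ω)) ≤
      w.ex (fun i => P.ent fun ω => z ω + r i • d ω) +
        w.ex fun i => P.ent fun ω => z ω + (r i / (r i - 1)) • e ω := by
  rw [← ex_add]
  exact (h.two' hr P z d e).trans (w.ex_mono fun i _ =>
    P.subadd _ _ _ fun a b h1 h2 => Prod.ext h1 h2)

omit [Module ℚ G] in
theorem sub3 {Ω : Type} [Fintype Ω] (P : FP Ω) (y d e : Ω → G) :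
    P.ent (fun ω => (y ω, e ω, d ω)) + P.ent d ≤
      P.ent (fun ω => (y ω, d ω)) + P.ent (fun ω => (y ω + e ω, d ω)) :=
  P.submod _ _ _ _ (fun _ _ h => (Prod.ext_iff.1 h).2) (fun _ _ h => (Prod.ext_iff.1 h).2)
    fun a b h1 h2 => by
      simp only [Prod.ext_iff] at h1 h2 ⊢
      have h3 := h2.1
      rw [h1.1] at h3
      exact ⟨h1.1, add_left_cancel h3, h1.2⟩

end Pool.Agent.Work.MP_72ad00_an
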