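import Pool.Agent.Work.MP_72ad00_an.KT

/-!
The entropy inequality for planes.
-/

set_option autoImplicit false

open Finset Real

namespace Pool.Agent.Work.MP_72ad00_an

open Pool.Agent.Lib.PFR Pool.Agent.Lib.PFR.FP

variable (G : Type) [AddCommGroup G] [Module ℚ G]

/-- The plane inequality with constant `c` for the weighted points `(w, u)`. -/
def PIneq (c : ℝ) {κ : Type} [Fintype κ] (w : FP κ) (u : κ → ℚ × ℚ) : Prop :=
  ∀ (Ω : Type) [Fintype Ω] (P : FP Ω) (x a b : Ω → G) (N : ℝ), P.ent a ≤ N → P.ent b ≤ N →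
    2 * N ≤ P.ent (fun ω => (a ω, b ω)) →
    (1 - 3 * c) * N + c * P.ent (fun ω => (x ω, a ω, b ω)) ≤
      w.ex fun k => P.ent fun ω => x ω + (u k).1 • a ω + (u k).2 • b ω

/-- The plane inequality holds for some weighted points with positive coordinates. -/
def PK (c : ℝ) : Prop :=
  ∃ (κ : Type) (_ : Fintype κ) (w : FP κ) (u : κ → ℚ × ℚ), (∀ k, 0 < (u k).1 ∧ 0 < (u k).2) ∧
    PIneq G c w u

variable {G}

theorem PK.of_sum {c W : ℝ} (hW : 0 < W) {n : ℕ} (e : Fin n → ℝ) (he : ∀ j, 0 ≤ e j)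
    (hs : ∑ j, e j = W) {ι : Type} [Fintype ι] (w : FP ι) (u : Fin n → ι → ℚ × ℚ)
    (h : ∀ (Ω : Type) [Fintype Ω] (P : FP Ω) (x a b : Ω → G) (N : ℝ), P.ent a ≤ N →
      P.ent b ≤ N → 2 * N ≤ P.ent (fun ω => (a ω, b ω)) →
      W * ((1 - 3 * c) * N + c * P.ent (fun ω => (x ω, a ω, b ω))) ≤
        ∑ j, e j * w.ex fun i => P.ent fun ω => x ω + (u j i).1 • a ω + (u j i).2 • b ω) :
    PK G c := by
  let w0 : FP (Fin n) := ⟨fun j => e j / W, fun j => div_nonneg (he j) hW.le, by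
    rw [← sum_div, hs, div_self hW.ne']⟩
  obtain ⟨B, hB⟩ := Finite.exists_le fun z : Fin n × ι => |(u z.1 z.2).1| + |(u z.1 z.2).2|
  refine ⟨Fin n × ι, inferInstance, w0.prod w,
    fun z => ((u z.1 z.2).1 + (B + 1), (u z.1 z.2).2 + (B + 1)), fun z => ?_,
    fun Ω _ P x a b N ha hb hab => ?_⟩
  · have h1 := hB z
    have h2 := neg_abs_le (u z.1 z.2).1
    have h3 := neg_abs_le (u z.1 z.2).2
    have h4 := abs_nonneg (u z.1 z.2).1
    have h5 := abs_nonneg (u z.1 z.2).2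
    constructor <;> simp only <;> linarith
  have h1 := h Ω P (fun ω => x ω + (B + 1) • a ω + (B + 1) • b ω) a b N ha hb hab
  have e1 : P.ent (fun ω => (x ω + (B + 1) • a ω + (B + 1) • b ω, a ω, b ω)) =
      P.ent (fun ω => (x ω, a ω, b ω)) :=
    P.ent_congr fun _ _ => by
      simp only [Prod.ext_iff]
      constructor
      · rintro ⟨h1, h2, h3⟩
        rw [h2, h3] at h1
        exact ⟨add_right_cancel (add_right_cancel h1), h2, h3⟩
      · rintro ⟨h1, h2, h3⟩
        rw [h1, h2, h3]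
        exact ⟨rfl, rfl, rfl⟩
  rw [e1] at h1
  rw [ex_prod]
  refine le_of_mul_le_mul_left (h1.trans (le_of_eq ?_)) hW
  rw [ex, mul_sum]
  refine sum_congr rfl fun j _ => ?_
  have e2 : ∀ i, (fun ω => x ω + (B + 1) • a ω + (B + 1) • b ω + (u j i).1 • a ω +
      (u j i).2 • b ω) =
      fun ω => x ω + ((u j i).1 + (B + 1)) • a ω + ((u j i).2 + (B + 1)) • b ω :=
    fun i => funext fun ω => by module
  simp only [e2, w0]
  field_simp

omit [AddCommGroup G] [Module ℚ G] in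
theorem ent_fst_ge {Ω : Type} [Fintype Ω] (P : FP Ω) (a b : Ω → G) {N : ℝ} (hb : P.ent b ≤ N)
    (hab : 2 * N ≤ P.ent fun ω => (a ω, b ω)) : N ≤ P.ent a := by
  have := P.subadd a b (fun ω => (a ω, b ω)) fun _ _ h1 h2 => by rw [h1, h2]
  linarith

theorem PK.base {β : ℝ} (h : KT G β) (h0 : 1 / 2 ≤ β) (h1 : β ≤ 1) : PK G ((1 - β) ^ 2) := by
  obtain ⟨ι, _, w, r, hr, h⟩ := h
  refine ⟨ι × ι, inferInstance, w.prod w, fun z => (r z.2, r z.1),
    fun z => ⟨by linarith [hr z.2], by linarith [hr z.1]⟩, fun Ω _ P x a b N ha hb hab => ?_⟩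
  have hN := ent_fst_ge P a b hb hab
  have k1 := w.ex_mono fun i _ => h Ω P (fun ω => x ω + r i • b ω) a
  have k2 := h.cond P x b a
  have e1 : P.ent (fun ω => (b ω, a ω)) = P.ent (fun ω => (a ω, b ω)) :=
    P.ent_congr fun _ _ => by simp [Prod.ext_iff, and_comm]
  have e2 : P.ent (fun ω => (x ω, b ω, a ω)) = P.ent (fun ω => (x ω, a ω, b ω)) :=
    P.ent_congr fun _ _ => by simp [Prod.ext_iff, and_comm]
  rw [e1, e2] at k2
  simp only [ex_add, ex_const, ex_const_mul] at k1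
  simp only [ex_prod, add_right_comm _ (r _ • a _)]
  have b1 : 0 ≤ 1 - β := by linarith
  have b2 : 0 ≤ 2 * β - 1 := by linarith
  have f1 := mul_le_mul_of_nonneg_left k2 b1
  have f2 := mul_le_mul_of_nonneg_left hN (add_nonneg b2 (mul_nonneg b1 b1))
  have f3 := mul_le_mul_of_nonneg_left hab (mul_nonneg b1 b2)
  linarith [k1, f1, f2, f3]

/-- Parallel lines in a plane. -/
theorem Ineq.lines {β : ℝ} {ι : Type} [Fintype ι] {w : FP ι} {r : ι → ℚ} (h : Ineq G β w r)
    (h0 : 1 / 2 ≤ β) (h1 : β ≤ 1) {Ω : Type} [Fintype Ω] (P : FP Ω) (x a b : Ω → G) {N : ℝ}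
    (hb : P.ent b ≤ N) (hab : 2 * N ≤ P.ent fun ω => (a ω, b ω)) {s : ℚ} (t : ℚ) (hs : s ≠ 0) :
    (3 * β - 1) * N + (1 - β) * P.ent (fun ω => (x ω, a ω, b ω)) ≤
      w.ex fun i => P.ent fun ω => (x ω + r i • b ω, s • a ω + t • b ω) := by
  have k := h.cond P x b fun ω => s • a ω + t • b ω
  have key : ∀ ω ω', b ω = b ω' → (s • a ω + t • b ω = s • a ω' + t • b ω' ↔ a ω = a ω') :=
    fun ω ω' h1 => by rw [h1, add_left_inj, smul_right_inj hs]
  have e1 : P.ent (fun ω => (b ω, s • a ω + t • b ω)) = P.ent (fun ω => (a ω, b ω)) :=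
    P.ent_congr fun ω ω' => by
      simp only [Prod.ext_iff]
      exact ⟨fun h => ⟨(key _ _ h.1).1 h.2, h.1⟩, fun h => ⟨h.2, (key _ _ h.2).2 h.1⟩⟩
  have e2 : P.ent (fun ω => (x ω, b ω, s • a ω + t • b ω)) =
      P.ent (fun ω => (x ω, a ω, b ω)) :=
    P.ent_congr fun ω ω' => by
      simp only [Prod.ext_iff]
      exact ⟨fun h => ⟨h.1, (key _ _ h.2.1).1 h.2.2, h.2.1⟩,
        fun h => ⟨h.1, h.2.2, (key _ _ h.2.2).2 h.2.1⟩⟩
  have k2 : N ≤ P.ent fun ω => s • a ω + t • b ω := by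
    refine ent_fst_ge P _ b hb (hab.trans (le_of_eq ?_))
    rw [← e1]
    exact P.ent_congr fun _ _ => by simp only [Prod.ext_iff, and_comm]
  rw [e1, e2] at k
  have b1 : 0 ≤ 1 - β := by linarith
  have b2 : 0 ≤ 2 * β - 1 := by linarith
  have f2 := mul_le_mul_of_nonneg_left k2 b1
  have f3 := mul_le_mul_of_nonneg_left hab b2
  linarith [k, f2, f3]

/-- Two lines through a point, projected from the difference of their directions. -/
theorem Ineq.diff {β : ℝ} {ι : Type} [Fintype ι] {w : FP ι} {r : ι → ℚ} (h : Ineq G β w r)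
    (hr : ∀ i, 1 < r i) {Ω : Type} [Fintype Ω] (P : FP Ω) (y d e : Ω → G) :
    (1 - β) * (cp P y).ent (fun z => - e z.2 + d z.1) +
      (2 * β - 1) * (cp P y).ent (fun z => (d z.1, e z.2)) +
      (1 - β) * (P.ent (fun ω => (y ω, d ω)) + P.ent (fun ω => (y ω, e ω)) - P.ent y) ≤
      w.ex (fun i => P.ent fun ω => y ω + r i • d ω) +
        w.ex fun i => P.ent fun ω => y ω + r i • e ω := by
  set Q := cp P y with hQ
  have k := h.cond Q (fun z => y z.1) (fun z => d z.1) fun z => - e z.2 + d z.1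
  have key : ∀ z z' : Ω × Ω, d z.1 = d z'.1 →
      (- e z.2 + d z.1 = - e z'.2 + d z'.1 ↔ e z.2 = e z'.2) :=
    fun ω ω' h1 => by rw [h1, add_left_inj, neg_inj]
  have e1 : Q.ent (fun z => (d z.1, - e z.2 + d z.1)) = Q.ent (fun z => (d z.1, e z.2)) :=
    Q.ent_congr fun ω ω' => by
      simp only [Prod.ext_iff]
      exact ⟨fun h => ⟨h.1, (key _ _ h.1).1 h.2⟩, fun h => ⟨h.1, (key _ _ h.1).2 h.2⟩⟩
  have e2 : Q.ent (fun z => (y z.1, d z.1, - e z.2 + d z.1)) =
      Q.ent (fun z => (y z.1, d z.1, e z.2)) :=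
    Q.ent_congr fun ω ω' => by
      simp only [Prod.ext_iff]
      exact ⟨fun h => ⟨h.1, h.2.1, (key _ _ h.2.1).1 h.2.2⟩,
        fun h => ⟨h.1, h.2.1, (key _ _ h.2.1).2 h.2.2⟩⟩
  rw [e1, e2, cp_pair P y d e] at k
  rw [← ex_add]
  refine k.trans (w.ex_mono fun i _ => ?_)
  rw [← cp_fst P y fun ω => y ω + r i • d ω, ← cp_snd P y fun ω => y ω + r i • e ω]
  refine Q.subadd' _ _ _ fun s t hs ht h1 h2 => ?_
  have h0 : r i ≠ 0 := by linarith [hr i]
  refine Prod.ext h1 ?_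
  have k : ∀ z : Ω × Ω, Q.p z ≠ 0 → - e z.2 + d z.1 = (r i)⁻¹ • (y z.1 + r i • d z.1) -
      (r i)⁻¹ • (y z.2 + r i • e z.2) := fun z hz => by
    rw [(cp_supp hz).2.2]
    match_scalars
    · field_simp
    · field_simp
    · ring
  show - e s.2 + d s.1 = - e t.2 + d t.1
  rw [k s hs, k t ht, h1, h2]

/-- The step for planes. -/
theorem PK.step {β c : ℝ} (h : KT G β) (h0 : 1 / 2 ≤ β) (h1 : β ≤ 1) (hp : PK G c) (hc : 0 ≤ c) :
    PK G ((1 - β) * (2 - 2 * β + ((1 - β) * c + β - 1 / 2)) /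
      (3 - β + ((1 - β) * c + β - 1 / 2))) := by
  obtain ⟨ι, _, w, r, hr, h⟩ := h
  obtain ⟨κ, _, v, u, hu, hp⟩ := hp
  have b1 : 0 ≤ 1 - β := by linarith
  have b2 : 0 ≤ 2 * β - 1 := by linarith
  set k := (1 - β) * c + β - 1 / 2 with hk
  have b3 : 0 ≤ k := by linarith [mul_nonneg b1 hc]
  have hW : 0 < 2 * (3 - β + k) := by linarith
  refine PK.of_sum hW (n := 4) ![1, 1, 2, 2 * k + 2 * (1 - β)]
    (fun j => by fin_cases j <;> (simp; try linarith)) (by simp [Fin.sum_univ_four]; ring)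
    (w.prod (v.prod w))
    ![fun i => (r i.2.2 * (u i.2.1).1, r i.1 + r i.2.2 * (u i.2.1).2),
      fun i => (r i.2.2 * (u i.2.1).1, r i.1 + r i.2.2 * - (u i.2.1).2),
      fun i => (r i.2.2, r i.1), fun i => (0, r i.1)] fun Ω _ P x a b N ha hb hab => ?_
  have hN := ent_fst_ge P a b hb hab
  have main : ∀ y : Ω → G, (2 * (1 - β) * (1 - 3 * c) + (2 * β - 1) + 4 * k) * N +
      (1 - β) * v.ex (fun j => P.ent fun ω => (y ω, (u j).1 • a ω + (u j).2 • b ω)) +
      (1 - β) * v.ex (fun j => P.ent fun ω => (y ω, (u j).1 • a ω + (- (u j).2) • b ω)) +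
      (2 * k + 2 * (1 - β)) * P.ent (fun ω => (y ω, a ω)) ≤
      v.ex (fun j => w.ex fun i => P.ent fun ω => y ω + r i • ((u j).1 • a ω + (u j).2 • b ω)) +
      v.ex (fun j => w.ex fun i => P.ent fun ω =>
        y ω + r i • ((u j).1 • a ω + (- (u j).2) • b ω)) +
      2 * w.ex (fun i => P.ent fun ω => y ω + r i • a ω) + (2 * k + 2 * (1 - β)) * P.ent y := by
    intro y
    set Q := cp P y with hQ
    set J := Q.ent (fun z => (a z.2, a z.1, b z.1)) with hJ
    have hJ1 : 2 * N + P.ent (fun ω => (y ω, a ω)) - P.ent y ≤ J := by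
      have t := Q.submod (fun z => (y z.1, a z.1, b z.1)) (fun z => (a z.2, a z.1, b z.1))
        (fun z => (a z.1, b z.1)) (fun z => (y z.1, (a z.1, b z.1), a z.2))
        (fun _ _ h => (Prod.ext_iff.1 h).2) (fun _ _ h => (Prod.ext_iff.1 h).2)
        fun _ _ h1 h2 => by
          simp only [Prod.ext_iff] at h1 h2 ⊢
          exact ⟨h1.1, h1.2, h2.1⟩
      rw [cp_pair P y (fun ω => (a ω, b ω)) a, cp_fst P y fun ω => (a ω, b ω),
        cp_fst P y fun ω => (y ω, a ω, b ω)] at t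
      linarith
    have qa : Q.ent (fun z => a z.1) ≤ N := (cp_fst P y a).le.trans ha
    have qb : Q.ent (fun z => b z.1) ≤ N := (cp_fst P y b).le.trans hb
    have qab : 2 * N ≤ Q.ent (fun z => (a z.1, b z.1)) :=
      hab.trans (cp_fst P y fun ω => (a ω, b ω)).ge
    have p1 := hp _ Q (fun z => - a z.2) (fun z => a z.1) (fun z => b z.1) N qa qb qab
    have p2 := hp _ Q (fun z => - a z.2) (fun z => a z.1) (fun z => - b z.1) N qa
      ((Q.ent_congr fun _ _ => neg_inj).le.trans qb)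
      (qab.trans (Q.ent_congr fun _ _ => by simp [Prod.ext_iff]).le)
    have e1 : Q.ent (fun z => (- a z.2, a z.1, b z.1)) = J :=
      Q.ent_congr fun _ _ => by simp [Prod.ext_iff]
    have e2 : Q.ent (fun z => (- a z.2, a z.1, - b z.1)) = J :=
      Q.ent_congr fun _ _ => by simp [Prod.ext_iff]
    rw [e1] at p1
    rw [e2] at p2
    simp only [add_assoc, smul_neg, ← neg_smul] at p1 p2
    have p3 : ∀ j, J + N ≤ Q.ent (fun z => ((u j).1 • a z.1 + (u j).2 • b z.1, a z.2)) +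
        Q.ent (fun z => ((u j).1 • a z.1 + (- (u j).2) • b z.1, a z.2)) := fun j => by
      have t := Q.submod (fun z => ((u j).1 • a z.1 + (u j).2 • b z.1, a z.2))
        (fun z => ((u j).1 • a z.1 + (- (u j).2) • b z.1, a z.2)) (fun z => a z.2)
        (fun z => (a z.2, a z.1, b z.1))
        (fun _ _ h => (Prod.ext_iff.1 h).2) (fun _ _ h => (Prod.ext_iff.1 h).2)
        fun s t h1 h2 => by
          simp only [Prod.ext_iff] at h1 h2 ⊢
          have s1 := (hu j).1.ne'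
          have s2 := (hu j).2.ne'
          have k1 : ∀ z : Ω × Ω, a z.1 = (2 * (u j).1)⁻¹ • (((u j).1 • a z.1 + (u j).2 • b z.1) +
              ((u j).1 • a z.1 + (- (u j).2) • b z.1)) := fun z => by
            match_scalars
            · field_simp
              ring
            · ring
          have k2 : ∀ z : Ω × Ω, b z.1 = (2 * (u j).2)⁻¹ • (((u j).1 • a z.1 + (u j).2 • b z.1) -
              ((u j).1 • a z.1 + (- (u j).2) • b z.1)) := fun z => by
            match_scalars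
            · field_simp
              ring
            · ring
          refine ⟨h1.2, ?_, ?_⟩
          · rw [k1 s, k1 t, h1.1, h2.1]
          · rw [k2 s, k2 t, h1.1, h2.1]
      rw [cp_snd P y a] at t
      linarith
    have p4 := v.ex_mono fun j _ => p3 j
    have d1 := v.ex_mono fun j _ => h.diff hr P y (fun ω => (u j).1 • a ω + (u j).2 • b ω) a
    have d2 := v.ex_mono fun j _ => h.diff hr P y (fun ω => (u j).1 • a ω + (- (u j).2) • b ω) a
    simp only [ex_add, ex_sub, ex_const, ex_const_mul, ← hQ] at p4 d1 d2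
    have f1 := mul_le_mul_of_nonneg_left p1 b1
    have f2 := mul_le_mul_of_nonneg_left p2 b1
    have f3 := mul_le_mul_of_nonneg_left p4 b2
    have f4 := mul_le_mul_of_nonneg_left hJ1 b3
    have f5 : k * J = (1 - β) * c * J + β * J - 1 / 2 * J := by rw [hk]; ring
    linarith [d1, d2, f1, f2, f3, f4, f5]
  have m1 := w.ex_mono fun i _ => main fun ω => x ω + r i • b ω
  simp only [ex_add, ex_const, ex_const_mul] at m1
  have l1 := v.ex_mono fun j _ => h.lines h0 h1 P x a b hb hab (u j).2 (hu j).1.ne'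
  have l2 := v.ex_mono fun j _ => h.lines h0 h1 P x a b hb hab (- (u j).2) (hu j).1.ne'
  have l3 := h.lines h0 h1 P x a b hb hab 0 one_ne_zero
  rw [ex_const, ex_comm] at l1 l2
  simp only [one_smul, zero_smul, add_zero] at l3
  simp only [Fin.sum_univ_four, Matrix.cons_val, ex_prod, ex_const, zero_smul, add_zero]
  have e1 : ∀ (i i' : ι) (s t : ℚ), (fun ω => x ω + (r i' * s) • a ω + (r i + r i' * t) • b ω) =
      fun ω => x ω + r i • b ω + r i' • (s • a ω + t • b ω) :=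
    fun _ _ _ _ => funext fun ω => by module
  simp only [e1, add_right_comm _ (r _ • a _)]
  have e5 : 2 * (3 - β + k) * ((1 - 3 * ((1 - β) * (2 - 2 * β + k) / (3 - β + k))) * N +
      (1 - β) * (2 - 2 * β + k) / (3 - β + k) * P.ent fun ω => (x ω, a ω, b ω)) =
      (2 * (3 - β + k) - 6 * ((1 - β) * (2 - 2 * β + k))) * N +
      2 * ((1 - β) * (2 - 2 * β + k)) * P.ent fun ω => (x ω, a ω, b ω) := by
    have : 3 - β + k ≠ 0 := by linarith
    field_simp
    ring
  rw [e5]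
  have f1 := mul_le_mul_of_nonneg_left l1 b1
  have f2 := mul_le_mul_of_nonneg_left l2 b1
  have f3 := mul_le_mul_of_nonneg_left l3 (by linarith : 0 ≤ 2 * k + 2 * (1 - β))
  have f5 : k * N = (1 - β) * c * N + β * N - 1 / 2 * N := by rw [hk]; ring
  linarith [m1, f1, f2, f3, f5]

end Pool.Agent.Work.MP_72ad00_an
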